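import Mathlib

set_option autoImplicit false

namespace Pool.Agent.Helper54.PT

open Module

namespace D5

/-- an alternating form over `ZMod 2` has even rank -/
theorem even_rank_alt (n : ℕ) : ∀ (W : Type) [AddCommGroup W] [Module (ZMod 2) W]
    [Module.Finite (ZMod 2) W] (ψ : W →ₗ[ZMod 2] W →ₗ[ZMod 2] ZMod 2),
    (∀ x, ψ x x = 0) → finrank (ZMod 2) W = n →
      Even (finrank (ZMod 2) W + finrank (ZMod 2) (LinearMap.ker ψ)) := by
  induction n using Nat.strong_induction_on with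
  | _ n ih =>
    intro W _ _ _ ψ hψ hn
    by_cases h0 : ψ = 0
    · subst h0
      rw [LinearMap.ker_zero, finrank_top]
      exact Even.add_self _
    · obtain ⟨x, y, hxy⟩ : ∃ x y, ψ x y ≠ 0 := by
        by_contra hc
        push Not at hc
        exact h0 (LinearMap.ext fun x => LinearMap.ext fun y => hc x y)
      have h01 : ∀ a : ZMod 2, a ≠ 0 → a = 1 := by decide
      have hxy1 : ψ x y = 1 := h01 _ hxy
      have hsymm : ∀ a b, ψ a b = ψ b a := by
        intro a b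
        have h := hψ (a + b)
        simp only [map_add, LinearMap.add_apply, hψ, zero_add, add_zero] at h
        have h2 : ∀ s t : ZMod 2, s + t = 0 → t = s := by decide
        exact h2 _ _ h
      have hyx1 : ψ y x = 1 := by rw [hsymm]; exact hxy1
      set φ : W →ₗ[ZMod 2] (ZMod 2 × ZMod 2) := (ψ x).prod (ψ y) with hφ
      have hrange : LinearMap.range φ = ⊤ := by
        rw [LinearMap.range_eq_top]
        rintro ⟨a, b⟩
        refine ⟨a • y + b • x, ?_⟩
        simp [hφ, hψ, hxy1, hyx1]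
      have hdim : 2 + finrank (ZMod 2) (LinearMap.ker φ) = finrank (ZMod 2) W := by
        have h := LinearMap.finrank_range_add_finrank_ker φ
        rw [hrange, finrank_top] at h
        simpa using h
      set W' := LinearMap.ker φ with hW'
      have hmem : ∀ w, w ∈ W' ↔ ψ x w = 0 ∧ ψ y w = 0 := by
        intro w
        rw [hW', LinearMap.mem_ker]
        simp [hφ]
      set ψ' : W' →ₗ[ZMod 2] W' →ₗ[ZMod 2] ZMod 2 := ψ.domRestrict₁₂ W' W' with hψ'
      have hψ'ap : ∀ a b : W', ψ' a b = ψ a b := fun a b => rfl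
      have hker : (LinearMap.ker ψ').map W'.subtype = LinearMap.ker ψ := by
        ext w
        simp only [Submodule.mem_map, LinearMap.mem_ker, Submodule.subtype_apply]
        constructor
        · rintro ⟨w', hw', rfl⟩
          ext z
          obtain ⟨h1, h2⟩ := (hmem _).1 w'.2
          -- decompose `z`
          have hz : z - (ψ y z • x + ψ x z • y) ∈ W' := by
            rw [hmem]
            constructor
            · simp [hψ, hxy1]
            · simp [hψ, hyx1]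
          have h3 : ψ' w' ⟨_, hz⟩ = 0 := by rw [hw']; rfl
          rw [hψ'ap] at h3
          simp only [map_sub, map_add, map_smul, smul_eq_mul] at h3
          rw [hsymm _ x, hsymm _ y, h1, h2] at h3
          simpa using h3
        · intro hw
          have hw1 : ∀ z, ψ w z = 0 := fun z => by rw [hw]; rfl
          have hwm : w ∈ W' := by
            rw [hmem, hsymm x, hsymm y]
            exact ⟨hw1 x, hw1 y⟩
          refine ⟨⟨w, hwm⟩, ?_, rfl⟩
          ext z
          rw [hψ'ap]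
          exact hw1 _
      have hkd : finrank (ZMod 2) (LinearMap.ker ψ) = finrank (ZMod 2) (LinearMap.ker ψ') := by
        rw [← hker, Submodule.finrank_map_subtype_eq]
      have hlt : finrank (ZMod 2) W' < n := by omega
      have := ih _ hlt W' ψ' (fun a => by rw [hψ'ap]; exact hψ _) rfl
      rw [hkd, ← hdim, add_assoc]
      exact (by decide : Even 2).add this

end D5

open D5 in
/-- D5: three maximal totally singular subspaces -/
theorem lag_parity {V : Type} [AddCommGroup V] [Module (ZMod 2) V] [Module.Finite (ZMod 2) V]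
    (B : V →ₗ[ZMod 2] V →ₗ[ZMod 2] ZMod 2) (Q : V → ZMod 2)
    (hQ : ∀ x y, Q (x + y) = Q x + Q y + B x y) (hB : ∀ x, (∀ y, B x y = 0) → x = 0)
    (L₁ L₂ L₃ : Submodule (ZMod 2) V) (h₁ : ∀ x ∈ L₁, Q x = 0) (h₂ : ∀ x ∈ L₂, Q x = 0)
    (h₃ : ∀ x ∈ L₃, Q x = 0) (d : ℕ) (hd₁ : finrank (ZMod 2) L₁ = d)
    (hd₂ : finrank (ZMod 2) L₂ = d) (hd₃ : finrank (ZMod 2) L₃ = d)
    (hV : finrank (ZMod 2) V = 2 * d) :
    Even (finrank (ZMod 2) (L₁ ⊓ L₂ : Submodule (ZMod 2) V) +
      finrank (ZMod 2) (L₂ ⊓ L₃ : Submodule (ZMod 2) V) +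
        finrank (ZMod 2) (L₃ ⊓ L₁ : Submodule (ZMod 2) V) + d) := by
  have h2 : ∀ s t : ZMod 2, s + t = 0 → s = t := by decide
  have hneg : ∀ x : V, -x = x := by
    intro x
    have : (2 : ZMod 2) • x = 0 := by
      rw [show (2 : ZMod 2) = 0 by decide, zero_smul]
    rw [two_smul] at this
    exact neg_eq_of_add_eq_zero_left this
  have hsymm : ∀ x y, B x y = B y x := by
    intro x y
    have e1 := hQ x y
    have e2 := hQ y x
    rw [add_comm y x, e1, add_comm (Q y) (Q x)] at e2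
    exact add_left_cancel e2
  have hrefl : LinearMap.BilinForm.IsRefl B := by
    intro x y h
    show B y x = 0
    rw [hsymm]
    exact h
  have hnd : LinearMap.BilinForm.Nondegenerate B := by
    refine ⟨fun x hx => hB x hx, fun y hy => hB y fun x => ?_⟩
    rw [hsymm]
    exact hy x
  -- totally singular subspaces of half dimension are their own orthogonals
  have hself : ∀ L : Submodule (ZMod 2) V, (∀ x ∈ L, Q x = 0) → finrank (ZMod 2) L = d →
      LinearMap.BilinForm.orthogonal B L = L := by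
    intro L hL hLd
    symm
    apply Submodule.eq_of_le_of_finrank_eq
    · intro x hx
      rw [LinearMap.BilinForm.mem_orthogonal_iff]
      intro y hy
      have := hQ y x
      rw [hL _ (L.add_mem hy hx), hL _ hy, hL _ hx, zero_add, zero_add] at this
      exact this.symm
    · rw [LinearMap.BilinForm.finrank_orthogonal hnd, hV, hLd]
      omega
  have hperp : ∀ L M : Submodule (ZMod 2) V, LinearMap.BilinForm.orthogonal B L = L →
      LinearMap.BilinForm.orthogonal B M = M →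
        LinearMap.BilinForm.orthogonal B (L ⊔ M) = L ⊓ M := by
    intro L M hL hM
    apply le_antisymm
    · exact le_inf ((LinearMap.BilinForm.orthogonal_le le_sup_left).trans hL.le)
        ((LinearMap.BilinForm.orthogonal_le le_sup_right).trans hM.le)
    · intro x hx
      rw [LinearMap.BilinForm.mem_orthogonal_iff]
      intro n hn
      obtain ⟨a, ha, b, hb, rfl⟩ := Submodule.mem_sup.1 hn
      have hxL : x ∈ LinearMap.BilinForm.orthogonal B L := by rw [hL]; exact hx.1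
      have hxM : x ∈ LinearMap.BilinForm.orthogonal B M := by rw [hM]; exact hx.2
      rw [map_add, LinearMap.add_apply, hxL a ha, hxM b hb, add_zero]
  have e₁ := hself L₁ h₁ hd₁
  have e₂ := hself L₂ h₂ hd₂
  have e₃ := hself L₃ h₃ hd₃
  -- the orthogonal of `L₂ ⊓ (L₁ ⊔ L₃)` is `L₂ ⊔ (L₁ ⊓ L₃)`
  have o13 := hperp L₁ L₃ e₁ e₃
  have o13' : LinearMap.BilinForm.orthogonal B (L₁ ⊓ L₃) = L₁ ⊔ L₃ := by
    rw [← o13, LinearMap.BilinForm.orthogonal_orthogonal hnd hrefl]
  have osup : ∀ M N : Submodule (ZMod 2) V, LinearMap.BilinForm.orthogonal B (M ⊔ N) =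
      LinearMap.BilinForm.orthogonal B M ⊓ LinearMap.BilinForm.orthogonal B N := by
    intro M N
    apply le_antisymm
    · exact le_inf (LinearMap.BilinForm.orthogonal_le le_sup_left)
        (LinearMap.BilinForm.orthogonal_le le_sup_right)
    · intro x hx
      rw [LinearMap.BilinForm.mem_orthogonal_iff]
      intro n hn
      obtain ⟨a, ha, b, hb, rfl⟩ := Submodule.mem_sup.1 hn
      rw [map_add, LinearMap.add_apply, hx.1 a ha, hx.2 b hb, add_zero]
  have oX : LinearMap.BilinForm.orthogonal B (L₂ ⊔ (L₁ ⊓ L₃)) = L₂ ⊓ (L₁ ⊔ L₃) := by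
    rw [osup, e₂, o13']
  have oX' : LinearMap.BilinForm.orthogonal B (L₂ ⊓ (L₁ ⊔ L₃)) = L₂ ⊔ (L₁ ⊓ L₃) := by
    rw [← oX, LinearMap.BilinForm.orthogonal_orthogonal hnd hrefl]
  -- dimension of `L₂ ⊓ (L₁ ⊔ L₃)`
  have f1 : finrank (ZMod 2) (L₂ ⊓ (L₁ ⊔ L₃) : Submodule (ZMod 2) V) =
      2 * d - finrank (ZMod 2) (L₂ ⊔ (L₁ ⊓ L₃) : Submodule (ZMod 2) V) := by
    rw [← oX, LinearMap.BilinForm.finrank_orthogonal hnd, hV]
  have f2 := Submodule.finrank_sup_add_finrank_inf_eq L₂ (L₁ ⊓ L₃)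
  have f3 : finrank (ZMod 2) (L₂ ⊔ (L₁ ⊓ L₃) : Submodule (ZMod 2) V) ≤ 2 * d := by
    rw [← hV]; exact Submodule.finrank_le _
  -- the space `K`
  let K : Submodule (ZMod 2) (V × V) :=
    { carrier := {p | p.1 ∈ L₁ ∧ p.2 ∈ L₂ ∧ p.1 + p.2 ∈ L₃}
      add_mem' := by
        rintro p q ⟨p1, p2, p3⟩ ⟨q1, q2, q3⟩
        refine ⟨L₁.add_mem p1 q1, L₂.add_mem p2 q2, ?_⟩
        have : (p + q).1 + (p + q).2 = (p.1 + p.2) + (q.1 + q.2) := by
          simp only [Prod.fst_add, Prod.snd_add]; abel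
        rw [this]
        exact L₃.add_mem p3 q3
      zero_mem' := ⟨L₁.zero_mem, L₂.zero_mem, by simp⟩
      smul_mem' := by
        rintro c p ⟨p1, p2, p3⟩
        refine ⟨L₁.smul_mem c p1, L₂.smul_mem c p2, ?_⟩
        have : (c • p).1 + (c • p).2 = c • (p.1 + p.2) := by
          simp [smul_add]
        rw [this]
        exact L₃.smul_mem c p3 }
  have hK : ∀ p : V × V, p ∈ K ↔ p.1 ∈ L₁ ∧ p.2 ∈ L₂ ∧ p.1 + p.2 ∈ L₃ := fun p => Iff.rfl
  -- dimension of `K` through the second projection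
  let π : K →ₗ[ZMod 2] V := (LinearMap.snd (ZMod 2) V V).comp K.subtype
  have hπr : LinearMap.range π = L₂ ⊓ (L₁ ⊔ L₃) := by
    ext b
    constructor
    · rintro ⟨⟨p, hp⟩, rfl⟩
      obtain ⟨p1, p2, p3⟩ := (hK p).1 hp
      refine ⟨p2, ?_⟩
      show p.2 ∈ L₁ ⊔ L₃
      have : p.2 = p.1 + (p.1 + p.2) := by
        rw [← add_assoc]
        nth_rewrite 2 [← hneg p.1]
        simp
      rw [this]
      exact Submodule.add_mem_sup p1 p3
    · rintro ⟨hb2, hb⟩
      obtain ⟨a, ha, c, hc, rfl⟩ := Submodule.mem_sup.1 hb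
      refine ⟨⟨(a, a + c), ha, hb2, ?_⟩, rfl⟩
      show a + (a + c) ∈ L₃
      have : a + (a + c) = c := by
        rw [← add_assoc]
        nth_rewrite 2 [← hneg a]
        simp
      rw [this]
      exact hc
  have hπk : finrank (ZMod 2) (LinearMap.ker π) = finrank (ZMod 2) (L₃ ⊓ L₁ : Submodule (ZMod 2) V) := by
    have : (LinearMap.ker π).map ((LinearMap.fst (ZMod 2) V V).comp K.subtype) = L₃ ⊓ L₁ := by
      ext a
      constructor
      · rintro ⟨⟨p, hp⟩, hp0, rfl⟩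
        obtain ⟨p1, p2, p3⟩ := (hK p).1 hp
        have hp0' : p.2 = 0 := hp0
        refine ⟨?_, p1⟩
        rw [hp0', add_zero] at p3
        exact p3
      · rintro ⟨ha3, ha1⟩
        refine ⟨⟨(a, 0), ha1, L₂.zero_mem, ?_⟩, rfl, rfl⟩
        show a + 0 ∈ L₃
        rw [add_zero]; exact ha3
    rw [← this, ← LinearMap.range_domRestrict]
    symm
    apply LinearMap.finrank_range_of_inj
    rintro ⟨⟨p, hp⟩, hp0⟩ ⟨⟨q, hq⟩, hq0⟩ hpq
    have hp0' : p.2 = 0 := hp0
    have hq0' : q.2 = 0 := hq0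
    have hpq' : p.1 = q.1 := hpq
    apply Subtype.ext
    apply Subtype.ext
    exact Prod.ext hpq' (hp0'.trans hq0'.symm)
  have hKd := LinearMap.finrank_range_add_finrank_ker π
  rw [hπr, hπk] at hKd
  -- the alternating form
  let ψ : K →ₗ[ZMod 2] K →ₗ[ZMod 2] ZMod 2 :=
    B.compl₁₂ ((LinearMap.fst (ZMod 2) V V).comp K.subtype)
      ((LinearMap.snd (ZMod 2) V V).comp K.subtype)
  have hψap : ∀ p q : K, ψ p q = B p.1.1 q.1.2 := fun p q => rfl
  have halt : ∀ p, ψ p p = 0 := by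
    rintro ⟨p, hp⟩
    obtain ⟨p1, p2, p3⟩ := (hK p).1 hp
    rw [hψap]
    have := hQ p.1 p.2
    rw [h₃ _ p3, h₁ _ p1, h₂ _ p2, zero_add, zero_add] at this
    exact this.symm
  have hev := even_rank_alt _ K ψ halt rfl
  -- the radical
  have hmod : L₁ ⊓ (L₂ ⊔ (L₁ ⊓ L₃)) = (L₁ ⊓ L₂) ⊔ (L₁ ⊓ L₃) := by
    have := sup_inf_assoc_of_le L₂ (inf_le_left : L₁ ⊓ L₃ ≤ L₁)
    rw [inf_comm, sup_comm L₂, this, inf_comm L₂ L₁, sup_comm]
  let ρ : LinearMap.ker ψ →ₗ[ZMod 2] V :=
    ((LinearMap.fst (ZMod 2) V V).comp K.subtype).comp (LinearMap.ker ψ).subtype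
  have hρ : ∀ p : LinearMap.ker ψ, ρ p = p.1.1.1 := fun p => rfl
  have hρr : LinearMap.range ρ = (L₁ ⊓ L₂) ⊔ (L₁ ⊓ L₃) := by
    ext a
    constructor
    · rintro ⟨⟨⟨p, hp⟩, hpk⟩, rfl⟩
      obtain ⟨p1, p2, p3⟩ := (hK p).1 hp
      rw [← hmod]
      refine ⟨p1, ?_⟩
      show p.1 ∈ L₂ ⊔ (L₁ ⊓ L₃)
      rw [← oX', LinearMap.BilinForm.mem_orthogonal_iff]
      intro b hb
      rw [← hπr] at hb
      obtain ⟨q, rfl⟩ := hb
      have h := LinearMap.congr_fun (LinearMap.mem_ker.1 hpk) q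
      rw [hψap] at h
      rw [hsymm]
      exact h
    · intro ha
      have ha' : a ∈ L₁ ⊓ (L₂ ⊔ (L₁ ⊓ L₃)) := by rw [hmod]; exact ha
      obtain ⟨x, hx, y, hy, rfl⟩ := Submodule.mem_sup.1 ha
      have hxy : x + y + x = y := by
        rw [add_comm x y, add_assoc]
        nth_rewrite 2 [← hneg x]
        simp
      refine ⟨⟨⟨(x + y, x), ha'.1, hx.2, ?_⟩, ?_⟩, rfl⟩
      · show x + y + x ∈ L₃
        rw [hxy]; exact hy.2
      · rw [LinearMap.mem_ker]
        ext q
        rw [hψap]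
        have h1 : x + y ∈ LinearMap.BilinForm.orthogonal B (L₂ ⊓ (L₁ ⊔ L₃)) := by
          rw [oX']; exact ha'.2
        rw [LinearMap.BilinForm.mem_orthogonal_iff] at h1
        have h2 : (q : V × V).2 ∈ L₂ ⊓ (L₁ ⊔ L₃) := by
          rw [← hπr]; exact ⟨q, rfl⟩
        have h3 := h1 _ h2
        rw [hsymm] at h3
        exact h3
  have hρk : finrank (ZMod 2) (LinearMap.ker ρ) =
      finrank (ZMod 2) (L₂ ⊓ L₃ : Submodule (ZMod 2) V) := by
    have : (LinearMap.ker ρ).map (((LinearMap.snd (ZMod 2) V V).comp K.subtype).comp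
        (LinearMap.ker ψ).subtype) = L₂ ⊓ L₃ := by
      ext b
      constructor
      · rintro ⟨⟨⟨p, hp⟩, hpk⟩, hp0, rfl⟩
        obtain ⟨p1, p2, p3⟩ := (hK p).1 hp
        have hp0' : p.1 = 0 := hp0
        refine ⟨p2, ?_⟩
        rw [hp0', zero_add] at p3
        exact p3
      · rintro ⟨hb2, hb3⟩
        refine ⟨⟨⟨(0, b), L₁.zero_mem, hb2, ?_⟩, ?_⟩, rfl, rfl⟩
        · show 0 + b ∈ L₃
          rw [zero_add]; exact hb3
        · rw [LinearMap.mem_ker]
          ext q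
          rw [hψap]
          show B 0 _ = 0
          rw [map_zero]; rfl
    rw [← this, ← LinearMap.range_domRestrict]
    symm
    apply LinearMap.finrank_range_of_inj
    rintro ⟨⟨⟨p, hp⟩, hpk⟩, hp0⟩ ⟨⟨⟨q, hq⟩, hqk⟩, hq0⟩ hpq
    have hp0' : p.1 = 0 := hp0
    have hq0' : q.1 = 0 := hq0
    have hpq' : p.2 = q.2 := hpq
    apply Subtype.ext
    apply Subtype.ext
    apply Subtype.ext
    exact Prod.ext (hp0'.trans hq0'.symm) hpq'
  have hRd := LinearMap.finrank_range_add_finrank_ker ρ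
  rw [hρr, hρk] at hRd
  have f4 := Submodule.finrank_sup_add_finrank_inf_eq (L₁ ⊓ L₂) (L₁ ⊓ L₃)
  have t1 : L₂ ⊓ (L₁ ⊓ L₃) = (L₁ ⊓ L₂) ⊓ (L₁ ⊓ L₃) := by
    rw [inf_inf_distrib_left L₁ L₂ L₃ |>.symm, inf_left_comm]
  have t2 : L₃ ⊓ L₁ = L₁ ⊓ L₃ := inf_comm _ _
  rw [t1] at f2
  rw [t2] at hKd ⊢
  rw [Nat.even_iff] at hev ⊢
  omega

end Pool.Agent.Helper54.PT
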