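import Pool.Agent.Helper31.TW.St2

set_option autoImplicit false

namespace Pool.Agent.Helper3.TW

open Pool.Agent.Helper31.TW

theorem dot_add' {n : ℕ} (α x y : Fin n → ℤ) : dot α (x + y) = dot α x + dot α y := by
  unfold dot
  rw [← Finset.sum_add_distrib]
  refine Finset.sum_congr rfl fun i _ => ?_
  simp only [Pi.add_apply]
  ring

theorem dot_smul' {n : ℕ} (α y : Fin n → ℤ) (c : ℤ) : dot α (c • y) = c * dot α y := by
  unfold dot
  rw [Finset.mul_sum]
  refine Finset.sum_congr rfl fun i _ => ?_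
  simp only [Pi.smul_apply, smul_eq_mul]
  ring

theorem clip_ge (K : ℕ) (z : ℤ) (h : (K : ℤ) ≤ z) : clip K z = K := by
  unfold clip
  omega

theorem clip_le (K : ℕ) (z : ℤ) (h : z ≤ -(K : ℤ)) : clip K z = -(K : ℤ) := by
  unfold clip
  omega

/-- equal cut off values for all large `k` give the same value of `Ev` -/
theorem ev_cong {n : ℕ} {M : (Fin n → ℤ) → Prop} {𝓐 : Finset (Fin n → ℤ)} {K : ℕ}
    (hD : Dep M 𝓐 K) (x x' y y' : Fin n → ℤ)
    (h : ∀ α ∈ 𝓐, ∃ k1 : ℕ, ∀ k : ℕ, k1 ≤ k →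
      clip K (dot α x + (k : ℤ) * dot α y) = clip K (dot α x' + (k : ℤ) * dot α y')) :
    (Ev M x y ↔ Ev M x' y') := by
  choose! f hf using h
  have key : ∀ k : ℕ, 𝓐.sup f ≤ k →
      (M (x + (k : ℤ) • y) ↔ M (x' + (k : ℤ) • y')) := by
    intro k hk
    refine hD _ _ fun α hα => ?_
    rw [dot_add', dot_add', dot_smul', dot_smul']
    exact hf α hα k (le_trans (Finset.le_sup hα) hk)
  constructor
  · rintro ⟨K0, hK0⟩
    exact ⟨max K0 (𝓐.sup f), fun k hk => (key k (le_trans (le_max_right _ _) hk)).1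
      (hK0 k (le_trans (le_max_left _ _) hk))⟩
  · rintro ⟨K0, hK0⟩
    exact ⟨max K0 (𝓐.sup f), fun k hk => (key k (le_trans (le_max_right _ _) hk)).2
      (hK0 k (le_trans (le_max_left _ _) hk))⟩

theorem hEV2 (_hEV1 : StEV1) : StEV2 := by
  intro n M 𝓐 K hD
  have one : ∀ y w : Fin n → ℤ, ∃ N0 : ℕ, ∀ N : ℤ, (N0 : ℤ) ≤ N → ∀ x : Fin n → ℤ, ∃ s0 : ℕ,
      ∀ s : ℤ, (s0 : ℤ) ≤ s → (Ev M (x + s • w) y ↔ Ev M x (N • y + w)) := by
    intro y w
    refine ⟨1 + 𝓐.sup (fun α => (dot α w).natAbs), fun N hN x => ?_⟩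
    refine ⟨1 + K + 𝓐.sup (fun α => (dot α x).natAbs), fun s hs => ?_⟩
    refine ev_cong hD _ _ _ _ fun α hα => ?_
    have h1 : (dot α w).natAbs ≤ 𝓐.sup (fun α => (dot α w).natAbs) :=
      Finset.le_sup (f := fun α => (dot α w).natAbs) hα
    have h2 : (dot α x).natAbs ≤ 𝓐.sup (fun α => (dot α x).natAbs) :=
      Finset.le_sup (f := fun α => (dot α x).natAbs) hα
    generalize 𝓐.sup (fun α => (dot α w).natAbs) = A1 at h1 hN
    generalize 𝓐.sup (fun α => (dot α x).natAbs) = A2 at h2 hs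
    rw [dot_add', dot_smul', dot_add', dot_smul']
    generalize dot α w = c at *
    generalize dot α x = a at *
    generalize dot α y = b at *
    have hN' : (c.natAbs : ℤ) + 1 ≤ N := by push_cast at hN; omega
    have hs' : (a.natAbs : ℤ) + K + 1 ≤ s := by push_cast at hs; omega
    refine ⟨K + a.natAbs + (a + s * c).natAbs, fun k hk => ?_⟩
    have hk' : (K : ℤ) + (a.natAbs : ℤ) + ((a + s * c).natAbs : ℤ) ≤ (k : ℤ) := by
      exact_mod_cast hk
    rcases lt_trichotomy b 0 with hb | hb | hb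
    · have e1 : (k : ℤ) * b ≤ -(k : ℤ) := by nlinarith [Int.natCast_nonneg k]
      have e2 : N * b + c ≤ -1 := by
        have : N * b ≤ -N := by nlinarith [Int.natCast_nonneg c.natAbs]
        omega
      have e3 : (k : ℤ) * (N * b + c) ≤ -(k : ℤ) := by nlinarith [Int.natCast_nonneg k]
      rw [clip_le K _ (by omega), clip_le K _ (by omega)]
    · subst hb
      rcases lt_trichotomy c 0 with hc | hc | hc
      · have e1 : s * c ≤ -s := by nlinarith [Int.natCast_nonneg a.natAbs, Int.natCast_nonneg K]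
        have e3 : (k : ℤ) * (N * 0 + c) ≤ -(k : ℤ) := by
          have : N * 0 + c ≤ -1 := by omega
          nlinarith [Int.natCast_nonneg k]
        rw [mul_zero, clip_le K _ (by omega), clip_le K _ (by omega)]
      · subst hc
        simp
      · have e1 : s ≤ s * c := by nlinarith [Int.natCast_nonneg a.natAbs, Int.natCast_nonneg K]
        have e3 : (k : ℤ) ≤ (k : ℤ) * (N * 0 + c) := by
          have : 1 ≤ N * 0 + c := by omega
          nlinarith [Int.natCast_nonneg k]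
        rw [mul_zero, clip_ge K _ (by omega), clip_ge K _ (by omega)]
    · have e1 : (k : ℤ) ≤ (k : ℤ) * b := by nlinarith [Int.natCast_nonneg k]
      have e2 : 1 ≤ N * b + c := by
        have : N ≤ N * b := by nlinarith [Int.natCast_nonneg c.natAbs]
        omega
      have e3 : (k : ℤ) ≤ (k : ℤ) * (N * b + c) := by nlinarith [Int.natCast_nonneg k]
      rw [clip_ge K _ (by omega), clip_ge K _ (by omega)]
  refine ⟨one, fun x y w => ?_⟩
  obtain ⟨N0, hN0⟩ := one y w
  obtain ⟨s0, hs0⟩ := hN0 N0 le_rfl x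
  exact ⟨s0, fun s s' hs hs' => (hs0 s hs).trans (hs0 s' hs').symm⟩

end Pool.Agent.Helper3.TW
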